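import Pool.Agent.Helper76.P11.StC

/-!
# Levels `11^n`, module DIMO: dimension of subO (odd exponents)

Adapted from `Pool/Agent/Helper71/Q5P7/M_DIMO.lean`.
-/

set_option autoImplicit false

namespace Pool.Agent.Helper73.P11

open Pool.Agent.Helper76.P11

section lin

variable {W W' : Type} [AddCommGroup W] [Module ℂ W] [FiniteDimensional ℂ W] [AddCommGroup W']
  [Module ℂ W']

private theorem rn (f : W →ₗ[ℂ] W') (V : Submodule ℂ W) :
    Module.finrank ℂ (V.map f) + Module.finrank ℂ ↥(V ⊓ LinearMap.ker f) =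
      Module.finrank ℂ V := by
  have h := LinearMap.finrank_range_add_finrank_ker (f.domRestrict V)
  rw [LinearMap.range_domRestrict, LinearMap.ker_domRestrict] at h
  have h2 : Module.finrank ℂ ↥((LinearMap.ker f).comap V.subtype) =
      Module.finrank ℂ ↥(V ⊓ LinearMap.ker f) := by
    rw [← Submodule.map_comap_subtype, Submodule.finrank_map_subtype_eq]
  rw [h2] at h
  exact h

end lin

section lin2

variable {W W' : Type} [AddCommGroup W] [Module ℂ W] [FiniteDimensional ℂ W] [AddCommGroup W']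
  [Module ℂ W'] [FiniteDimensional ℂ W']

private theorem fr_prod (V : Submodule ℂ W) (V' : Submodule ℂ W') :
    Module.finrank ℂ ↥(V.prod V') = Module.finrank ℂ V + Module.finrank ℂ V' := by
  have h1 : V.prod V' = LinearMap.range (V.subtype.prodMap V'.subtype) := by
    rw [LinearMap.range_prodMap, Submodule.range_subtype, Submodule.range_subtype]
  rw [h1, LinearMap.finrank_range_of_inj, Module.finrank_prod]
  rintro ⟨a, b⟩ ⟨a', b'⟩ h
  simp only [LinearMap.prodMap_apply, Submodule.subtype_apply, Prod.mk.injEq,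
    SetLike.coe_eq_coe] at h
  rw [h.1, h.2]

end lin2

private theorem pw0 {m : ℕ} (hm : 1 ≤ m) : (11 : ZMod (11 ^ m)) * 11 ^ (m - 1) = 0 := by
  rw [← pow_succ', Nat.sub_add_cancel hm]
  have h3 := ZMod.natCast_self (11 ^ m)
  push_cast at h3
  exact h3

private theorem red {m : ℕ} (hm : 1 ≤ m) (t : ℤ) :
    (t : ZMod (11 ^ m)) * 11 ^ (m - 1) = ((t : ZMod 11).val : ZMod (11 ^ m)) * 11 ^ (m - 1) := by
  have h1 : ((t : ZMod 11).val : ℤ) = t % 11 := by
    rw [ZMod.val_intCast]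
    norm_num
  have h2 : (((t : ZMod 11).val : ℕ) : ZMod (11 ^ m)) = ((t % 11 : ℤ) : ZMod (11 ^ m)) := by
    rw [← h1]
    push_cast
    rfl
  rw [h2]
  have h3 : t = t % 11 + 11 * (t / 11) := (Int.emod_add_mul_ediv t 11).symm
  have h4 : (t : ZMod (11 ^ m)) = ((t % 11 : ℤ) : ZMod (11 ^ m)) + 11 * ((t / 11 : ℤ) : ZMod (11 ^ m)) := by
    conv_lhs => rw [h3]
    push_cast
    ring
  rw [h4]
  linear_combination ((t / 11 : ℤ) : ZMod (11 ^ m)) * pw0 hm

private theorem sum_zmod (g : ℕ → ℂ) :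
    ∑ i ∈ Finset.range 11, g i = ∑ z : ZMod 11, g z.val := by
  have : ∀ h : ZMod 11 → ℂ, ∑ z : ZMod 11, h z = ∑ i : Fin 11, h i := fun h => rfl
  rw [Finset.sum_range, this]
  rfl

private theorem sum_s {m : ℕ} (hm : 1 ≤ m) (s : ℤ) (hs : ¬ (11 : ℤ) ∣ s)
    (g : ZMod (11 ^ m) → ℂ) :
    ∑ i ∈ Finset.range 11, g (s * ((i : ZMod (11 ^ m)) * 11 ^ (m - 1))) =
      ∑ i ∈ Finset.range 11, g ((i : ZMod (11 ^ m)) * 11 ^ (m - 1)) := by
  have hf : Fact (Nat.Prime 11) := ⟨by norm_num⟩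
  have hs0 : (s : ZMod 11) ≠ 0 := by
    intro h
    exact hs ((ZMod.intCast_zmod_eq_zero_iff_dvd s 11).1 h)
  rw [sum_zmod (fun i => g (s * ((i : ZMod (11 ^ m)) * 11 ^ (m - 1)))),
    sum_zmod (fun i => g ((i : ZMod (11 ^ m)) * 11 ^ (m - 1)))]
  refine Fintype.sum_equiv (Equiv.mulLeft₀ (s : ZMod 11) hs0) _ _ fun z => ?_
  have h1 := red hm (s * (z.val : ℤ))
  have h2 : ((s * (z.val : ℤ) : ℤ) : ZMod 11) = (s : ZMod 11) * z := by
    push_cast
    rw [ZMod.natCast_zmod_val]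
  rw [h2] at h1
  change g (s * ((z.val : ZMod (11 ^ m)) * 11 ^ (m - 1))) =
    g ((((s : ZMod 11) * z).val : ZMod (11 ^ m)) * 11 ^ (m - 1))
  rw [← h1]
  congr 1
  push_cast
  ring

private theorem anti_s {m : ℕ} (hm : 1 ≤ m) {F : Pt m → ℂ} (hF : F ∈ anti11 m) (s : ℤ)
    (hs : ¬ (11 : ℤ) ∣ s) (x y : ZMod (11 ^ m)) :
    ∑ i ∈ Finset.range 11, F (x + s * (i * 11 ^ (m - 1)), y) = 0 ∧
      ∑ i ∈ Finset.range 11, F (x, y + s * (i * 11 ^ (m - 1))) = 0 := by
  obtain ⟨h1, h2⟩ := hF (x, y)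
  constructor
  · rw [sum_s hm s hs (fun t => F (x + t, y))]
    exact h1
  · rw [sum_s hm s hs (fun t => F (x, y + t))]
    exact h2

private theorem dv_step {m : ℕ} (hm : 1 ≤ m) {s : ℤ} {φ : ZMod (11 ^ m) → ZMod (11 ^ m)}
    (h : Dv s φ) (x : ZMod (11 ^ m)) (i : ℕ) :
    φ (x + i * 11 ^ (m - 1)) = φ x + s * (i * 11 ^ (m - 1)) := by
  have h1 := h (m - 1) (x + i * 11 ^ (m - 1)) x ⟨i, by ring⟩
  have h2 : (11 : ZMod (11 ^ m)) ^ (m - 1 + 1) = 0 := by
    rw [Nat.sub_add_cancel hm]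
    have h3 := ZMod.natCast_self (11 ^ m)
    push_cast at h3
    exact h3
  rw [h2, zero_dvd_iff] at h1
  linear_combination h1

private theorem anti_comp {m n : ℕ} (hm : 1 ≤ m) {r : Pt m → Pt m} (hr : Ty n r) {F : Pt m → ℂ}
    (hF : F ∈ anti11 m) : (fun p => F (r p)) ∈ anti11 m := by
  rcases hr with ⟨_, s, s', φ, φ', hs, _, hs', _, hφ, hφ', hr⟩ | ⟨_, s, s', ψ, ψ', hs, hs', hψ, hψ', hr⟩
  · intro p
    simp only [hr, dv_step hm hφ, dv_step hm hφ']
    exact ⟨(anti_s hm hF s hs (φ p.1) (φ' p.2)).1, (anti_s hm hF s' hs' (φ p.1) (φ' p.2)).2⟩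
  · intro p
    simp only [hr, dv_step hm hψ, dv_step hm hψ']
    exact ⟨(anti_s hm hF s' hs' (ψ p.2) (ψ' p.1)).2, (anti_s hm hF s hs (ψ p.2) (ψ' p.1)).1⟩

/-- The map `((f, l), e) ↦ e + e∘sw - l∘rO - f`. -/
private def Q (m : ℕ) : (((Pt m → ℂ) × (Pt m → ℂ)) × (Pt m → ℂ)) →ₗ[ℂ] (Pt m → ℂ) where
  toFun F p := F.2 p + F.2 (sw p) - F.1.2 (rO p) - F.1.1 p
  map_add' F F' := by
    funext p; simp only [Prod.fst_add, Prod.snd_add, Pi.add_apply]; ring
  map_smul' c F := by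
    funext p
    simp only [Prod.smul_fst, Prod.smul_snd, Pi.smul_apply, smul_eq_mul,
      RingHom.id_apply]; ring

private theorem Q_apply {m : ℕ} (F : ((Pt m → ℂ) × (Pt m → ℂ)) × (Pt m → ℂ))
    (p : Pt m) : Q m F p = F.2 p + F.2 (sw p) - F.1.2 (rO p) - F.1.1 p := rfl

/-- **Module DIMO.** -/
theorem hDimO : StHDimO := by
  intro ht hk hs m hm
  obtain ⟨⟨a1, a2, a3, a4⟩, ⟨b1, b2, b3, b4⟩, ⟨⟨c1, c2⟩, c3⟩, -⟩ := ht m
  obtain ⟨-, q2, q3⟩ := hk m hm
  have p1 : (((1 : ℤ) : ℂ)) = 1 := by push_cast; rfl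
  have eF := q3 ng sw 0 1 1 1 1 a1 a2 a3 a4 (Or.inl rfl) (Or.inl rfl)
  have eL := q3 (dR 0) cO 0 1 1 1 1 b1 b2 b3 b4 (Or.inl rfl) (Or.inl rfl)
  have eE := q2 rO 1 c1 c2 (Or.inl rfl)
  have eW := q2 sw 1 a1.2.1 a3 (Or.inl rfl)
  rw [p1] at eF eL eE eW
  set Vf := inv11 (m := m) ng sw 1 1 with hVf
  set Vl := inv11 (m := m) (dR 0) cO 1 1 with hVl
  set Ve := inv1 (m := m) rO 1 with hVe
  set VW := inv1 (m := m) sw 1 with hVW
  have hmap : ((Vf.prod Vl).prod Ve).map (Q m) = VW := by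
    apply le_antisymm
    · rintro _ ⟨⟨⟨f, l⟩, u⟩, ⟨⟨⟨hf, hf'⟩, ⟨hl, hl'⟩⟩, ⟨hu, hu'⟩⟩, rfl⟩
      dsimp only at hf hf' hl hl' hu hu'
      have f1 : ∀ p, f (sw p) = f p := fun p => by rw [(hf' p).2, one_mul]
      have l1 : ∀ p, l (cO p) = l p := fun p => by rw [(hl' p).2, one_mul]
      have inv : ∀ p, Q m ((f, l), u) (sw p) = 1 * Q m ((f, l), u) p := by
        intro p
        rw [Q_apply, Q_apply]
        dsimp only
        rw [a1.2.1 p, f1 p, c3 p, l1 (rO p)]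
        ring
      refine ⟨?_, fun p => inv p⟩
      have h4 : Q m ((f, l), u) = u + (fun p => u (sw p)) -
          (fun p => l (rO p)) - f := by
        funext p
        simp only [Q_apply, Pi.add_apply, Pi.sub_apply]
      rw [h4]
      exact Submodule.sub_mem _ (Submodule.sub_mem _ (Submodule.add_mem _ hu
        (anti_comp hm a3 hu)) (anti_comp hm c2 hl)) hf
    · intro φ hφ
      obtain ⟨hφ0, hφ1⟩ := hφ
      obtain ⟨f, hf, l, hl, hfn, hld, hfl⟩ :=
        hs 0 m hm ((2 : ℂ)⁻¹ • φ) (Submodule.smul_mem _ _ hφ0)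
      have t1 := anti_comp hm a3 hf
      have t2 := anti_comp hm b3 hl
      have t3 := anti_comp hm c2 hl
      refine ⟨((-(f + fun p => f (sw p)), l + fun p => l (cO p)),
          l + fun p => l (rO p)),
        ⟨⟨⟨?_, fun p => ⟨?_, ?_⟩⟩, ⟨?_, fun p => ⟨?_, ?_⟩⟩⟩,
          ⟨?_, fun p => ?_⟩⟩, ?_⟩
      · exact Submodule.neg_mem _ (Submodule.add_mem _ hf t1)
      · simp only [Pi.neg_apply, Pi.add_apply]
        rw [← a1.2.2 p, hfn p, hfn (sw p)]
        ring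
      · simp only [Pi.neg_apply, Pi.add_apply]
        rw [a1.2.1 p]
        ring
      · exact Submodule.add_mem _ hl t2
      · simp only [Pi.add_apply]
        rw [← b1.2.2 p, hld p, hld (cO p)]
        ring
      · simp only [Pi.add_apply]
        rw [b1.2.1 p]
        ring
      · exact Submodule.add_mem _ hl t3
      · simp only [Pi.add_apply]
        rw [c1 p]
        ring
      · funext p
        have x1 := hfl p
        have x2 := hfl (sw p)
        simp only [Pi.smul_apply, smul_eq_mul] at x1 x2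
        rw [hφ1 p] at x2
        rw [Q_apply]
        simp only [Pi.neg_apply, Pi.add_apply]
        rw [c3 p]
        linear_combination x1 + x2
  have hker : (Vf.prod Vl).prod Ve ⊓ LinearMap.ker (Q m) = subO m := by
    ext F
    constructor
    · rintro ⟨⟨⟨h1, h2⟩, h3⟩, h5⟩
      rw [SetLike.mem_coe, LinearMap.mem_ker] at h5
      exact ⟨h1, h2, h3, fun p => congrFun h5 p⟩
    · rintro ⟨h1, h2, h3, h⟩
      refine ⟨⟨⟨h1, h2⟩, h3⟩, ?_⟩
      rw [SetLike.mem_coe, LinearMap.mem_ker]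
      funext p
      exact h p
  have h6 := rn (Q m) ((Vf.prod Vl).prod Ve)
  rw [hmap, hker, fr_prod, fr_prod] at h6
  zify at h6 ⊢
  push_cast at eF eL eE eW
  linarith

end Pool.Agent.Helper73.P11
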