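import Pool.Agent.Helper4.P11.StD
import Pool.Agent.Helper84.P11.D1
import Pool.Agent.Helper10.P11.Pj

/-!
# Levels `11^n`, lower bound: modules PST and SOL

PST: first-order action of `δ1`, `δ2` on functions of one torus class. SOL: the classes `k` with
`5 ∤ k` are solved by `a - δ1 a` in the top degree.
-/

set_option autoImplicit false

namespace Pool.Agent.Helper73.P11

open Pool.Agent.Helper4.P11 Pool.Agent.Helper84.P11 Pool.Agent.Helper10.P11

section

variable {r s : ℕ}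

private theorem lmul {A B : Module.End (ZMod 11) (Fn11 (11 ^ r) (11 ^ s))} {a b : ℤ} (hA : Lw A a)
    (hB : Lw B b) : Lw (A * B) (a + b) := (low0 r s).1 _ _ _ _ hA hB

private theorem ladd {A B : Module.End (ZMod 11) (Fn11 (11 ^ r) (11 ^ s))} {a : ℤ} (hA : Lw A a)
    (hB : Lw B a) : Lw (A + B) a := (low0 r s).2.1 _ _ _ hA hB

private theorem lsmul {A : Module.End (ZMod 11) (Fn11 (11 ^ r) (11 ^ s))} {a : ℤ} (c : ZMod 11)
    (hA : Lw A a) : Lw (c • A) a := (low0 r s).2.2.1 _ _ _ hA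

private theorem lmono {A : Module.End (ZMod 11) (Fn11 (11 ^ r) (11 ^ s))} {a b : ℤ} (h : b ≤ a)
    (hA : Lw A a) : Lw A b := (low0 r s).2.2.2.1 _ _ _ h hA

private theorem ldX : Lw (dX : Module.End (ZMod 11) (Fn11 (11 ^ r) (11 ^ s))) 1 :=
  (low0 r s).2.2.2.2.2.2.1

private theorem ldY : Lw (dY : Module.End (ZMod 11) (Fn11 (11 ^ r) (11 ^ s))) 1 :=
  (low0 r s).2.2.2.2.2.2.2.1

private theorem lpj (c : ℕ) : Lw (pj c : Module.End (ZMod 11) (Fn11 (11 ^ r) (11 ^ s))) 0 :=
  (pj11 r s).1 c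

private theorem pjp (c : ℕ) :
    (pj (c + 10) : Module.End (ZMod 11) (Fn11 (11 ^ r) (11 ^ s))) = pj c := (pj11 r s).2.2.1 c

private theorem low_w (c : ℕ) (w : Fin 10) :
    Lw (oW w * pj c - ((om10 w : ℤ) : ZMod 11) ^ c • pj c :
      Module.End (ZMod 11) (Fn11 (11 ^ r) (11 ^ s))) 13 := by
  have h := ((pj11 r s).2.2.2.1 c w).2
  push_cast at h
  exact h

private theorem xpj (k : ℕ) : Lw (pj (k + 9) * dX - dX * pj k :
    Module.End (ZMod 11) (Fn11 (11 ^ r) (11 ^ s))) 2 := by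
  have h := ((pj11 r s).2.2.2.2.2.1 (k + 9)).1
  rw [show k + 9 + 1 = k + 10 from rfl, pjp k] at h
  exact h

private theorem ypj (k : ℕ) : Lw (pj (k + 1) * dY - dY * pj k :
    Module.End (ZMod 11) (Fn11 (11 ^ r) (11 ^ s))) 2 := by
  have h := ((pj11 r s).2.2.2.2.2.1 (k + 1)).2
  rw [show k + 1 + 9 = k + 10 from rfl, pjp k] at h
  exact h

private theorem gen (T : Module.End (ZMod 11) (Fn11 (11 ^ r) (11 ^ s))) (w : Fin 10)
    (α β z : ZMod 11) (hz : ((om10 w : ℤ) : ZMod 11) = z)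
    (hT : Lw (T - oW w * (1 + α • dX + β • dY)) 2) (k : ℕ) :
    Lw ((T - z ^ k • 1 - (α * z ^ (k + 9)) • dX - (β * z ^ (k + 1)) • dY) * pj k) 2 := by
  subst hz
  set z : ZMod 11 := ((om10 w : ℤ) : ZMod 11) with hz
  have e1 : Lw ((T - oW w * (1 + α • dX + β • dY)) * pj k) 2 := by
    have := lmul hT (lpj (r := r) (s := s) k)
    rwa [add_zero] at this
  have e2 : Lw (oW w * pj k - z ^ k • pj k :
      Module.End (ZMod 11) (Fn11 (11 ^ r) (11 ^ s))) 2 := lmono (by norm_num) (low_w k w)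
  have lw0 : Lw (oW w : Module.End (ZMod 11) (Fn11 (11 ^ r) (11 ^ s))) 0 := (nfa r s).1 w
  have e3 : Lw (oW w * (pj (k + 9) * dX - dX * pj k) :
      Module.End (ZMod 11) (Fn11 (11 ^ r) (11 ^ s))) 2 := by
    have := lmul lw0 (xpj (r := r) (s := s) k)
    rwa [zero_add] at this
  have e4 : Lw ((oW w * pj (k + 9) - z ^ (k + 9) • pj (k + 9)) * dX :
      Module.End (ZMod 11) (Fn11 (11 ^ r) (11 ^ s))) 2 :=
    lmono (by norm_num) (lmul (low_w (k + 9) w) ldX)
  have e5 := xpj (r := r) (s := s) k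
  have e6 : Lw (oW w * (pj (k + 1) * dY - dY * pj k) :
      Module.End (ZMod 11) (Fn11 (11 ^ r) (11 ^ s))) 2 := by
    have := lmul lw0 (ypj (r := r) (s := s) k)
    rwa [zero_add] at this
  have e7 : Lw ((oW w * pj (k + 1) - z ^ (k + 1) • pj (k + 1)) * dY :
      Module.End (ZMod 11) (Fn11 (11 ^ r) (11 ^ s))) 2 :=
    lmono (by norm_num) (lmul (low_w (k + 1) w) ldY)
  have e8 := ypj (r := r) (s := s) k
  have h := ladd (ladd (ladd (ladd (ladd (ladd (ladd e1 e2) (lsmul (-α) e3)) (lsmul α e4))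
    (lsmul (α * z ^ (k + 9)) e5)) (lsmul (-β) e6)) (lsmul β e7)) (lsmul (β * z ^ (k + 1)) e8)
  have key : (T - z ^ k • 1 - (α * z ^ (k + 9)) • dX - (β * z ^ (k + 1)) • dY) * pj k =
      (T - oW w * (1 + α • dX + β • dY)) * pj k + (oW w * pj k - z ^ k • pj k) +
      (-α) • (oW w * (pj (k + 9) * dX - dX * pj k)) +
      α • ((oW w * pj (k + 9) - z ^ (k + 9) • pj (k + 9)) * dX) +
      (α * z ^ (k + 9)) • (pj (k + 9) * dX - dX * pj k) +
      (-β) • (oW w * (pj (k + 1) * dY - dY * pj k)) +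
      β • ((oW w * pj (k + 1) - z ^ (k + 1) • pj (k + 1)) * dY) +
      (β * z ^ (k + 1)) • (pj (k + 1) * dY - dY * pj k) := by
    simp only [mul_add, add_mul, sub_mul, mul_sub, smul_sub, smul_mul_assoc,
      mul_smul_comm, one_mul, mul_one, mul_smul, mul_assoc, neg_smul]
    abel
  rw [key]
  exact h

/-- **PST.** -/
theorem hPst : TPst := by
  intro r s k
  constructor
  · have h := ((lw1 r s 7 (-2) 1 (-3) (by norm_num) (by norm_num)).2 6 (by decide)).2
    have c1 : (((-2 : ℤ) * 7 ^ 9 : ℤ) : ZMod 11) = 6 := by decide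
    have c2 : (((1 : ℤ) * 7 ^ 9 * om10 6 ^ 9 : ℤ) : ZMod 11) = 7 := by decide
    rw [c1, c2] at h
    exact gen _ 6 6 7 9 (by decide) h k
  · have h := ((lw1 r s 8 (-3) 1 (-4) (by norm_num) (by norm_num)).2 4 (by decide)).2
    have c1 : (((-3 : ℤ) * 8 ^ 9 : ℤ) : ZMod 11) = 1 := by decide
    have c2 : (((1 : ℤ) * 8 ^ 9 * om10 4 ^ 9 : ℤ) : ZMod 11) = 8 := by decide
    rw [c1, c2] at h
    have h2 := gen _ 4 1 8 5 (by decide) h k
    rw [one_mul] at h2
    exact h2

/-- `(1 - 9^k)⁻¹` modulo `11` (`0` if `5 ∣ k`). -/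
private def cf (k : ℕ) : ZMod 11 := ([0, 4, 7, 5, 8, 0, 4, 7, 5, 8] : List (ZMod 11)).getD k 0

/-- **SOL.** -/
theorem hSol : TSol := by
  intro r s e E hE h0 h5
  set T : Module.End (ZMod 11) (Fn11 (11 ^ r) (11 ^ s)) := op11 7 (-2) 1 (-3) with hT
  have hl := (lw1 r s 7 (-2) 1 (-3) (by norm_num) (by norm_num)).2 6 (by decide)
  have z6 : ((om10 6 : ℤ) : ZMod 11) = 9 := by decide
  have hR : ∀ k : ℕ, T (pj k E) - (9 : ZMod 11) ^ k • pj k E ∈ Wd11 (e - 1) := by
    intro k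
    have a1 : Lw ((T - oW 6) * pj k) 1 := by
      have := lmul hl.1 (lpj (r := r) (s := s) k)
      rwa [add_zero] at this
    have a2 : Lw (oW 6 * pj k - (9 : ZMod 11) ^ k • pj k :
        Module.End (ZMod 11) (Fn11 (11 ^ r) (11 ^ s))) 1 := by
      have := low_w (r := r) (s := s) k 6
      rw [z6] at this
      exact lmono (by norm_num) this
    have a4 : (T - oW 6) * pj k + (oW 6 * pj k - (9 : ZMod 11) ^ k • pj k) =
        T * pj k - (9 : ZMod 11) ^ k • pj k := by
      rw [sub_mul]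
      abel
    have a3 := ladd a1 a2
    rw [a4] at a3
    exact a3 e E hE
  have hsum : ∑ k ∈ Finset.range 10, pj k E = E := by
    have h := congrArg (fun O : Module.End (ZMod 11) (Fn11 (11 ^ r) (11 ^ s)) => O E)
      (pj11 r s).2.1
    simp only [LinearMap.sum_apply] at h
    exact h
  refine ⟨∑ k ∈ Finset.range 10, cf k • pj k E, ?_, ?_⟩
  · refine Submodule.sum_mem _ fun k _ => Submodule.smul_mem _ _ ?_
    have := lpj (r := r) (s := s) k e E hE
    rwa [sub_zero] at this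
  · have key : E - (∑ k ∈ Finset.range 10, cf k • pj k E -
        T (∑ k ∈ Finset.range 10, cf k • pj k E)) =
        ∑ k ∈ Finset.range 10, ((1 - cf k * (1 - (9 : ZMod 11) ^ k)) • pj k E +
          cf k • (T (pj k E) - (9 : ZMod 11) ^ k • pj k E)) := by
      have h1 : ∀ k ∈ Finset.range 10, ((1 - cf k * (1 - (9 : ZMod 11) ^ k)) • pj k E +
          cf k • (T (pj k E) - (9 : ZMod 11) ^ k • pj k E)) =
          pj k E - (cf k • pj k E - T (cf k • pj k E)) := by
        intro k _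
        rw [map_smul]
        module
      rw [Finset.sum_congr rfl h1, Finset.sum_sub_distrib, Finset.sum_sub_distrib, hsum, map_sum]
    rw [key]
    refine Submodule.sum_mem _ fun k hk => Submodule.add_mem _ ?_ (Submodule.smul_mem _ _ (hR k))
    have hz : ∀ t : ZMod 11, t = 0 → t • pj k E ∈ (Wd11 (e - 1) :
        Submodule (ZMod 11) (Fn11 (11 ^ r) (11 ^ s))) := by
      intro t ht
      rw [ht, zero_smul]
      exact Submodule.zero_mem _
    have hk' := Finset.mem_range.1 hk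
    interval_cases k
    · exact Submodule.smul_mem _ _ h0
    · exact hz _ (by decide)
    · exact hz _ (by decide)
    · exact hz _ (by decide)
    · exact hz _ (by decide)
    · exact Submodule.smul_mem _ _ h5
    · exact hz _ (by decide)
    · exact hz _ (by decide)
    · exact hz _ (by decide)
    · exact hz _ (by decide)

end

end Pool.Agent.Helper73.P11
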